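import Pool.Agent.helper73.Spl.Final

/-!
# A finitely generated `ℤ`-algebra whose splinter locus is not open

The ring is `R = ℤ[1/2][x, y, w] / (w ^ 2 - x * y * (y ^ 2 - x ^ 2))`. At the prime `(x, y, w)` the
local ring is a normal domain containing `ℚ`, hence a splinter. For every odd prime number `ℓ` the
local ring at `(ℓ, x, y, w)` is not a splinter: multiplication by `ℓ` on the elliptic curve
`w ^ 2 = x * y * (y ^ 2 - x ^ 2)` lifts to a finite injective endomorphism `φ` of `R` with
`φ w ∈ (φ x, φ y, ℓ)`, while `w ∉ (x, y, ℓ)`.
-/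

namespace Pool.Agent.Results.MP_124696_ag.NonOpen

open Pool.Agent.helper73.Spl

/-- There is a normal integral domain `R`, finitely generated as a ring (hence excellent), whose
splinter locus is not open in `Spec R`. -/
theorem result : ∃ (R : Type) (_ : CommRing R), IsDomain R ∧ IsIntegrallyClosed R ∧
    Algebra.FiniteType ℤ R ∧ ¬ IsOpen (splinterLocus R) := by
  refine ⟨R0, inferInstance, isDomain_R0, isIntegrallyClosed_R0, ?_, not_isOpen⟩
  convert finiteType_R0
  exact Subsingleton.elim _ _

end Pool.Agent.Results.MP_124696_ag.NonOpen
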